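import Pool.Agent.helper92.VSP.BorderRank

/-!
# A border VSP with saturated and nonsaturated components

For `X = ℙ^1 × ℙ^2`, embedded by `O(2, 2)`, and the explicit form `exampleForm` of border rank
`4`, the border variety of sums of powers `VSP(F, 4)` has an irreducible component whose general
point is a saturated ideal, and an irreducible component whose general point is nonsaturated.
-/

set_option autoImplicit false

open MvPolynomial

noncomputable section

namespace Pool.Agent.Results.MP_ab9529_ag.BothComponentTypes

open Pool.Agent.BorderVSP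

/-- There are a smooth projective toric variety (`ℙ^1 × ℙ^2`), a very ample class (`(2, 2)`) and
a form `F` such that, for `r = 4` its border rank, the border variety `VSP(F, r)` has both an
irreducible component whose general point is saturated and an irreducible component whose general
point is nonsaturated. -/
theorem result :
    exampleForm ∈ piece (prodDegree 1 2) (2, 2) ∧
    IsBorderRank (prodDegree 1 2) (prodIrrelevant 1 2) (2, 2) exampleForm 4 ∧
    HasSaturatedComponent (prodDegree 1 2) (prodIrrelevant 1 2) exampleForm 4 ∧
    HasNonsaturatedComponent (prodDegree 1 2) (prodIrrelevant 1 2) exampleForm 4 := by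
  refine ⟨exampleForm_mem, isBorderRank_exampleForm, ?_, ?_⟩
  · let x : ↥(borderVSP w12 B12 exampleForm 4) := ⟨satPoint, satPoint_mem_VSP⟩
    refine ⟨irreducibleComponent x, irreducibleComponent_mem_irreducibleComponents x,
      Subtype.val ⁻¹' openSat, isOpen_openSat.preimage continuous_subtype_val,
      ⟨x, satPoint_mem_openSat, mem_irreducibleComponent⟩, ?_⟩
    rintro J ⟨hJ, -⟩
    exact isSaturated_of_mem_openSat hJ J.2.2
  · let x : ↥(borderVSP w12 B12 exampleForm 4) := ⟨limitPoint, limitPoint_mem_VSP⟩
    have hfour : genericHF w12 4 (0, 2) = 4 := genericHF_eq_four surj_02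
    have hopen : IsOpen (complSet w12 (h := genericHF w12 4) (0, 2) famDual02) := by
      refine isOpen_complSet w12 (0, 2) _ famDual02_mem ?_
      rw [← frameSize_add w12 satPoint (0, 2), hfour]
    have hmem : limitPoint ∈ complSet w12 (h := genericHF w12 4) (0, 2) famDual02 :=
      mem_complSet_of_dual famDual02 (famDual02_zero 0) (famDual02_ne 0) limitPoint_le
    refine ⟨irreducibleComponent x, irreducibleComponent_mem_irreducibleComponents x,
      Subtype.val ⁻¹' complSet w12 (h := genericHF w12 4) (0, 2) famDual02,
      hopen.preimage continuous_subtype_val, ⟨x, hmem, mem_irreducibleComponent⟩, ?_⟩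
    rintro J ⟨hJ, -⟩ hsat
    have h1 := W0W2_mem_of_saturated J.1 J.2.2 hsat
    -- but `z₀ z₂` is in the span of the dual forms
    have h2 : (W 0 * W 2 : S12) ∈ Submodule.span ℂ (Set.range famDual02) := by
      rw [Submodule.mem_span_range_iff_exists_fun]
      refine ⟨![0, 0, 1 / 2, 1 / 2], ?_⟩
      have h3 : (C (1 / 2) : S12) * 2 = 1 := by
        rw [← map_ofNat (C : ℂ →+* S12) 2, ← C_mul]; norm_num
      simp only [Fin.sum_univ_four, famDual02, Matrix.cons_val_zero, Matrix.cons_val_one,
        Matrix.cons_val, smul_eq_C_mul, C_0, zero_mul, zero_add]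
      linear_combination (W 0 * W 2) * h3
    have h4 : (W 0 * W 2 : S12) = 0 := by
      have h5 := Submodule.disjoint_def.1 hJ.2 _ h2
      exact h5 ⟨h1, mem_piece_quadW 0 2⟩
    exact mul_ne_zero (X_ne_zero _) (X_ne_zero _) h4

end Pool.Agent.Results.MP_ab9529_ag.BothComponentTypes
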